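import Mathlib

namespace Pool.Agent.Results.MP_d11917_an.LangtonStrip

/-- The two letters of a rule word. -/
inductive Turn
  | L
  | R
  deriving DecidableEq

/-- The four directions `(0,1), (1,0), (0,-1), (-1,0)`. -/
inductive Dir
  | N
  | E
  | S
  | W
  deriving DecidableEq

/-- The direction as a vector. -/
def Dir.vec : Dir → ℤ × ℤ
  | .N => (0, 1)
  | .E => (1, 0)
  | .S => (0, -1)
  | .W => (-1, 0)

/-- Quarter turn: clockwise for the letter `R`, counterclockwise for the letter `L`. -/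
def Dir.turn : Turn → Dir → Dir
  | .R, .N => .E
  | .R, .E => .S
  | .R, .S => .W
  | .R, .W => .N
  | .L, .N => .W
  | .L, .W => .S
  | .L, .S => .E
  | .L, .E => .N

/-- An ant configuration: grid of states, position and direction of the ant. The grid is an
arbitrary function. -/
structure Config (m : ℕ) where
  grid : ℤ × ℤ → Fin m
  pos : ℤ × ℤ
  dir : Dir

/-- One step of the generalised ant with rule word `w`. -/
def step {m : ℕ} [NeZero m] (w : Fin m → Turn) (C : Config m) : Config m where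
  grid := Function.update C.grid C.pos (C.grid C.pos + 1)
  pos := C.pos + (Dir.turn (w (C.grid C.pos)) C.dir).vec
  dir := Dir.turn (w (C.grid C.pos)) C.dir

/-- The set of cells visited infinitely often. -/
def Rec {m : ℕ} [NeZero m] (w : Fin m → Turn) (C : Config m) : Set (ℤ × ℤ) :=
  {x | {t : ℕ | ((step w)^[t] C).pos = x}.Infinite}

/-- The word contains both letters. -/
def NonTrivial {m : ℕ} (w : Fin m → Turn) : Prop := (∃ i, w i = Turn.L) ∧ (∃ i, w i = Turn.R)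

/-- The rule word `LR` of (a phase shift of) the classical Langton ant. -/
def langton : Fin 2 → Turn := ![Turn.L, Turn.R]

/-! ### Segments of trajectories -/

/-- There is a piece of trajectory from `C` to `C'` which only visits cells of `P`, and visits all
cells of `A`. -/
def Seg (P A : Set (ℤ × ℤ)) (C C' : Config 2) : Prop :=
  ∃ n, (step langton)^[n] C = C' ∧ (∀ t < n, ((step langton)^[t] C).pos ∈ P) ∧
    ∀ a ∈ A, ∃ t < n, ((step langton)^[t] C).pos = a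

lemma Seg.refl (P : Set (ℤ × ℤ)) (C : Config 2) : Seg P ∅ C C :=
  ⟨0, rfl, fun t ht => absurd ht (Nat.not_lt_zero t), fun a ha => absurd ha (Set.notMem_empty a)⟩

lemma Seg.trans {P A B : Set (ℤ × ℤ)} {C C' C'' : Config 2} (h1 : Seg P A C C')
    (h2 : Seg P B C' C'') : Seg P (A ∪ B) C C'' := by
  obtain ⟨n, hn, hP, hA⟩ := h1
  obtain ⟨k, hk, hP', hB⟩ := h2
  refine ⟨k + n, ?_, ?_, ?_⟩
  · rw [Function.iterate_add_apply, hn, hk]
  · intro t ht
    by_cases h : t < n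
    · exact hP t h
    · obtain ⟨s, rfl⟩ : ∃ s, t = s + n := ⟨t - n, by omega⟩
      rw [Function.iterate_add_apply, hn]
      exact hP' s (by omega)
  · intro a ha
    rcases ha with ha | ha
    · obtain ⟨t, ht, h⟩ := hA a ha
      exact ⟨t, by omega, h⟩
    · obtain ⟨t, ht, h⟩ := hB a ha
      refine ⟨t + n, by omega, ?_⟩
      rw [Function.iterate_add_apply, hn]
      exact h

lemma Seg.mono {P P' A A' : Set (ℤ × ℤ)} {C C' : Config 2} (h : Seg P A C C') (hP : P ⊆ P')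
    (hA : A' ⊆ A) : Seg P' A' C C' := by
  obtain ⟨n, hn, h1, h2⟩ := h
  exact ⟨n, hn, fun t ht => hP (h1 t ht), fun a ha => h2 a (hA ha)⟩

lemma Seg.one {P : Set (ℤ × ℤ)} {C : Config 2} (h : C.pos ∈ P) : Seg P {C.pos} C (step langton C) := by
  refine ⟨1, rfl, ?_, ?_⟩
  · intro t ht
    have : t = 0 := by omega
    subst this
    exact h
  · intro a ha
    exact ⟨0, by omega, (Set.mem_singleton_iff.1 ha).symm⟩

/-- A step at a cell with letter `L`. -/
lemma step_L (c : ℤ × ℤ → Fin 2) (p : ℤ × ℤ) (q : Dir) (h : c p = 0) :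
    step langton ⟨c, p, q⟩ = ⟨Function.update c p 1, p + (Dir.turn Turn.L q).vec,
      Dir.turn Turn.L q⟩ := by
  simp [step, h, langton]

/-- A step at a cell with letter `R`. -/
lemma step_R (c : ℤ × ℤ → Fin 2) (p : ℤ × ℤ) (q : Dir) (h : c p = 1) :
    step langton ⟨c, p, q⟩ = ⟨Function.update c p 0, p + (Dir.turn Turn.R q).vec,
      Dir.turn Turn.R q⟩ := by
  simp [step, h, langton]

lemma seg_L {P : Set (ℤ × ℤ)} (c : ℤ × ℤ → Fin 2) (x y : ℤ) (q : Dir) (h : c (x, y) = 0)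
    (hP : (x, y) ∈ P) (x' y' : ℤ) (q' : Dir) (hq : Dir.turn Turn.L q = q')
    (hp : (x, y) + q'.vec = (x', y')) :
    Seg P {(x, y)} ⟨c, (x, y), q⟩ ⟨Function.update c (x, y) 1, (x', y'), q'⟩ := by
  have h1 := Seg.one (P := P) (C := ⟨c, (x, y), q⟩) hP
  rw [step_L c (x, y) q h, hq, hp] at h1
  exact h1

lemma seg_R {P : Set (ℤ × ℤ)} (c : ℤ × ℤ → Fin 2) (x y : ℤ) (q : Dir) (h : c (x, y) = 1)
    (hP : (x, y) ∈ P) (x' y' : ℤ) (q' : Dir) (hq : Dir.turn Turn.R q = q')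
    (hp : (x, y) + q'.vec = (x', y')) :
    Seg P {(x, y)} ⟨c, (x, y), q⟩ ⟨Function.update c (x, y) 0, (x', y'), q'⟩ := by
  have h1 := Seg.one (P := P) (C := ⟨c, (x, y), q⟩) hP
  rw [step_R c (x, y) q h, hq, hp] at h1
  exact h1

/-! ### Passing along the two-row wire -/

/-- The row of the cell of column `x` which is entered horizontally. -/
def hrow (x : ℤ) : ℤ := if x % 2 = 0 then -1 else 0

lemma hrow_even {x : ℤ} (h : x % 2 = 0) : hrow x = -1 := by simp [hrow, h]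

lemma hrow_odd {x : ℤ} (h : x % 2 = 1) : hrow x = 0 := by simp [hrow, h]

lemma upd_same (c : ℤ × ℤ → Fin 2) (p : ℤ × ℤ) (v : Fin 2) : Function.update c p v p = v :=
  Function.update_self p v c

lemma upd_ne (c : ℤ × ℤ → Fin 2) (x y a b : ℤ) (v : Fin 2) (h : x ≠ a ∨ y ≠ b) :
    Function.update c (a, b) v (x, y) = c (x, y) := by
  apply Function.update_of_ne
  intro h'
  simp only [Prod.mk.injEq] at h'
  rcases h with h | h
  · exact h h'.1
  · exact h h'.2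

lemma passLeft {P : Set (ℤ × ℤ)} (hP : ∀ x y : ℤ, (y = 0 ∨ y = -1) → (x, y) ∈ P) :
    ∀ (n : ℕ) (c : ℤ × ℤ → Fin 2) (X Y : ℤ), Y = X - n →
    (∀ x, Y < x → x ≤ X → c (x, 0) = 0 ∧ c (x, -1) = 1) →
    ∃ c', Seg P {p | Y < p.1 ∧ p.1 ≤ X ∧ (p.2 = 0 ∨ p.2 = -1)}
        ⟨c, (X, hrow X), Dir.W⟩ ⟨c', (Y, hrow Y), Dir.W⟩ ∧
      (∀ x, Y < x → x ≤ X → c' (x, 0) = 1 ∧ c' (x, -1) = 0) ∧
      (∀ x y, ((x ≤ Y ∨ X < x) ∨ (y ≠ 0 ∧ y ≠ -1)) → c' (x, y) = c (x, y)) := by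
  intro n
  induction n with
  | zero =>
    intro c X Y hY hc
    have : Y = X := by simpa using hY
    subst this
    refine ⟨c, ?_, ?_, ?_⟩
    · apply (Seg.refl P _).mono le_rfl
      intro p hp
      simp only [Set.mem_ofPred_eq] at hp
      omega
    · intro x h1 h2; omega
    · intro x y _; rfl
  | succ n ih =>
    intro c X Y hY hc
    push_cast at hY
    have hX := hc X (by omega) le_rfl
    -- the grid after processing column X
    obtain ⟨c2, hseg, h20, h21, hfr⟩ : ∃ c2, Seg P {p | p.1 = X ∧ (p.2 = 0 ∨ p.2 = -1)}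
        ⟨c, (X, hrow X), Dir.W⟩ ⟨c2, (X - 1, hrow (X - 1)), Dir.W⟩ ∧ c2 (X, 0) = 1 ∧
        c2 (X, -1) = 0 ∧ (∀ x y, (x ≠ X ∨ (y ≠ 0 ∧ y ≠ -1)) → c2 (x, y) = c (x, y)) := by
      rcases Int.emod_two_eq_zero_or_one X with h | h
      · rw [hrow_even h, hrow_odd (show (X - 1) % 2 = 1 by omega)]
        refine ⟨Function.update (Function.update c (X, -1) 0) (X, 0) 1, ?_, ?_, ?_, ?_⟩
        · have s1 := seg_R (P := P) c X (-1) Dir.W hX.2 (hP _ _ (Or.inr rfl)) X 0 Dir.N rfl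
            (by simp [Dir.vec])
          have s2 := seg_L (P := P) (Function.update c (X, -1) 0) X 0 Dir.N
            (by rw [upd_ne _ _ _ _ _ _ (Or.inr (by norm_num))]; exact hX.1)
            (hP _ _ (Or.inl rfl)) (X - 1) 0 Dir.W rfl (by simp [Dir.vec]; ring)
          apply (s1.trans s2).mono le_rfl
          rintro ⟨x, y⟩ ⟨h1, h2⟩
          simp only at h1 h2
          subst h1
          rcases h2 with h2 | h2 <;> subst h2
          · right; rfl
          · left; rfl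
        · exact upd_same _ _ _
        · rw [upd_ne _ _ _ _ _ _ (Or.inr (by norm_num))]; exact upd_same _ _ _
        · intro x y hxy
          rw [upd_ne _ _ _ _ _ _ (by omega), upd_ne _ _ _ _ _ _ (by omega)]
      · rw [hrow_odd h, hrow_even (show (X - 1) % 2 = 0 by omega)]
        refine ⟨Function.update (Function.update c (X, 0) 1) (X, -1) 0, ?_, ?_, ?_, ?_⟩
        · have s1 := seg_L (P := P) c X 0 Dir.W hX.1 (hP _ _ (Or.inl rfl)) X (-1) Dir.S rfl
            (by simp [Dir.vec])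
          have s2 := seg_R (P := P) (Function.update c (X, 0) 1) X (-1) Dir.S
            (by rw [upd_ne _ _ _ _ _ _ (Or.inr (by norm_num))]; exact hX.2)
            (hP _ _ (Or.inr rfl)) (X - 1) (-1) Dir.W rfl (by simp [Dir.vec]; ring)
          apply (s1.trans s2).mono le_rfl
          rintro ⟨x, y⟩ ⟨h1, h2⟩
          simp only at h1 h2
          subst h1
          rcases h2 with h2 | h2 <;> subst h2
          · left; rfl
          · right; rfl
        · rw [upd_ne _ _ _ _ _ _ (Or.inr (by norm_num))]; exact upd_same _ _ _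
        · exact upd_same _ _ _
        · intro x y hxy
          rw [upd_ne _ _ _ _ _ _ (by omega), upd_ne _ _ _ _ _ _ (by omega)]
    obtain ⟨c', hs', hc', hf'⟩ := ih c2 (X - 1) Y (by omega) (by
      intro x h1 h2
      rw [hfr _ _ (by omega), hfr _ _ (by omega)]
      exact hc x h1 (by omega))
    refine ⟨c', ?_, ?_, ?_⟩
    · apply (hseg.trans hs').mono le_rfl
      rintro ⟨x, y⟩ ⟨h1, h2, h3⟩
      simp only at h1 h2 h3
      by_cases hx : x = X
      · left; exact ⟨hx, h3⟩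
      · right; exact ⟨h1, by simp only; omega, h3⟩
    · intro x h1 h2
      by_cases hx : x = X
      · subst hx
        rw [hf' _ _ (by omega), hf' _ _ (by omega)]
        exact ⟨h20, h21⟩
      · exact hc' x h1 (by omega)
    · intro x y hxy
      rw [hf' _ _ (by omega), hfr _ _ (by omega)]

lemma passRight {P : Set (ℤ × ℤ)} (hP : ∀ x y : ℤ, (y = 0 ∨ y = -1) → (x, y) ∈ P) :
    ∀ (n : ℕ) (c : ℤ × ℤ → Fin 2) (X Y : ℤ), Y = X + n →
    (∀ x, X ≤ x → x < Y → c (x, 0) = 1 ∧ c (x, -1) = 0) →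
    ∃ c', Seg P {p | X ≤ p.1 ∧ p.1 < Y ∧ (p.2 = 0 ∨ p.2 = -1)}
        ⟨c, (X, hrow X), Dir.E⟩ ⟨c', (Y, hrow Y), Dir.E⟩ ∧
      (∀ x, X ≤ x → x < Y → c' (x, 0) = 0 ∧ c' (x, -1) = 1) ∧
      (∀ x y, ((x < X ∨ Y ≤ x) ∨ (y ≠ 0 ∧ y ≠ -1)) → c' (x, y) = c (x, y)) := by
  intro n
  induction n with
  | zero =>
    intro c X Y hY hc
    have : Y = X := by simpa using hY
    subst this
    refine ⟨c, ?_, ?_, ?_⟩
    · apply (Seg.refl P _).mono le_rfl
      intro p hp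
      simp only [Set.mem_ofPred_eq] at hp
      omega
    · intro x h1 h2; omega
    · intro x y _; rfl
  | succ n ih =>
    intro c X Y hY hc
    push_cast at hY
    have hX := hc X le_rfl (by omega)
    obtain ⟨c2, hseg, h20, h21, hfr⟩ : ∃ c2, Seg P {p | p.1 = X ∧ (p.2 = 0 ∨ p.2 = -1)}
        ⟨c, (X, hrow X), Dir.E⟩ ⟨c2, (X + 1, hrow (X + 1)), Dir.E⟩ ∧ c2 (X, 0) = 0 ∧
        c2 (X, -1) = 1 ∧ (∀ x y, (x ≠ X ∨ (y ≠ 0 ∧ y ≠ -1)) → c2 (x, y) = c (x, y)) := by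
      rcases Int.emod_two_eq_zero_or_one X with h | h
      · rw [hrow_even h, hrow_odd (show (X + 1) % 2 = 1 by omega)]
        refine ⟨Function.update (Function.update c (X, -1) 1) (X, 0) 0, ?_, ?_, ?_, ?_⟩
        · have s1 := seg_L (P := P) c X (-1) Dir.E hX.2 (hP _ _ (Or.inr rfl)) X 0 Dir.N rfl
            (by simp [Dir.vec])
          have s2 := seg_R (P := P) (Function.update c (X, -1) 1) X 0 Dir.N
            (by rw [upd_ne _ _ _ _ _ _ (Or.inr (by norm_num))]; exact hX.1)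
            (hP _ _ (Or.inl rfl)) (X + 1) 0 Dir.E rfl (by simp [Dir.vec])
          apply (s1.trans s2).mono le_rfl
          rintro ⟨x, y⟩ ⟨h1, h2⟩
          simp only at h1 h2
          subst h1
          rcases h2 with h2 | h2 <;> subst h2
          · right; rfl
          · left; rfl
        · exact upd_same _ _ _
        · rw [upd_ne _ _ _ _ _ _ (Or.inr (by norm_num))]; exact upd_same _ _ _
        · intro x y hxy
          rw [upd_ne _ _ _ _ _ _ (by omega), upd_ne _ _ _ _ _ _ (by omega)]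
      · rw [hrow_odd h, hrow_even (show (X + 1) % 2 = 0 by omega)]
        refine ⟨Function.update (Function.update c (X, 0) 0) (X, -1) 1, ?_, ?_, ?_, ?_⟩
        · have s1 := seg_R (P := P) c X 0 Dir.E hX.1 (hP _ _ (Or.inl rfl)) X (-1) Dir.S rfl
            (by simp [Dir.vec])
          have s2 := seg_L (P := P) (Function.update c (X, 0) 0) X (-1) Dir.S
            (by rw [upd_ne _ _ _ _ _ _ (Or.inr (by norm_num))]; exact hX.2)
            (hP _ _ (Or.inr rfl)) (X + 1) (-1) Dir.E rfl (by simp [Dir.vec])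
          apply (s1.trans s2).mono le_rfl
          rintro ⟨x, y⟩ ⟨h1, h2⟩
          simp only at h1 h2
          subst h1
          rcases h2 with h2 | h2 <;> subst h2
          · left; rfl
          · right; rfl
        · rw [upd_ne _ _ _ _ _ _ (Or.inr (by norm_num))]; exact upd_same _ _ _
        · exact upd_same _ _ _
        · intro x y hxy
          rw [upd_ne _ _ _ _ _ _ (by omega), upd_ne _ _ _ _ _ _ (by omega)]
    obtain ⟨c', hs', hc', hf'⟩ := ih c2 (X + 1) Y (by omega) (by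
      intro x h1 h2
      rw [hfr _ _ (by omega), hfr _ _ (by omega)]
      exact hc x (by omega) h2)
    refine ⟨c', ?_, ?_, ?_⟩
    · apply (hseg.trans hs').mono le_rfl
      rintro ⟨x, y⟩ ⟨h1, h2, h3⟩
      simp only at h1 h2 h3
      by_cases hx : x = X
      · left; exact ⟨hx, h3⟩
      · right; exact ⟨by simp only; omega, h2, h3⟩
    · intro x h1 h2
      by_cases hx : x = X
      · subst hx
        rw [hf' _ _ (by omega), hf' _ _ (by omega)]
        exact ⟨h20, h21⟩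
      · exact hc' x (by omega) h2
    · intro x y hxy
      rw [hf' _ _ (by omega), hfr _ _ (by omega)]

/-! ### Diagonal staircases -/

lemma seg_gen {P : Set (ℤ × ℤ)} (c : ℤ × ℤ → Fin 2) (x y : ℤ) (q : Dir) (s : Fin 2)
    (h : c (x, y) = s) (hP : (x, y) ∈ P) (x' y' : ℤ) (q' : Dir)
    (hq : Dir.turn (langton s) q = q') (hp : (x, y) + q'.vec = (x', y')) :
    Seg P {(x, y)} ⟨c, (x, y), q⟩ ⟨Function.update c (x, y) (s + 1), (x', y'), q'⟩ := by
  have h1 := Seg.one (P := P) (C := ⟨c, (x, y), q⟩) hP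
  have h2 : step langton ⟨c, (x, y), q⟩ = ⟨Function.update c (x, y) (s + 1), (x', y'), q'⟩ := by
    simp only [step, h, hq, hp]
  rw [h2] at h1
  exact h1

lemma diag {P : Set (ℤ × ℤ)} (d1 d2 : Dir) (a b : ℤ) (ha : a = 1 ∨ a = -1) (hb : b = 1 ∨ b = -1)
    (s1 s2 : Fin 2) (hd1 : d1.vec = (a, 0)) (hd2 : d2.vec = (0, b))
    (ht1 : Dir.turn (langton s1) d1 = d2) (ht2 : Dir.turn (langton s2) d2 = d1) :
    ∀ (n : ℕ) (c : ℤ × ℤ → Fin 2) (x y : ℤ),
    (∀ i : ℕ, i < n → c (x + a * i, y + b * i) = s1 ∧ c (x + a * i, y + b * i + b) = s2) →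
    (∀ i : ℕ, i < n → (x + a * i, y + b * i) ∈ P ∧ (x + a * i, y + b * i + b) ∈ P) →
    ∃ c', Seg P ∅ ⟨c, (x, y), d1⟩ ⟨c', (x + a * n, y + b * n), d1⟩ ∧
      ∀ u v, (∀ i : ℕ, i < n → ¬ (u = x + a * i ∧ (v = y + b * i ∨ v = y + b * i + b))) →
        c' (u, v) = c (u, v) := by
  intro n
  induction n with
  | zero =>
    intro c x y _ _
    refine ⟨c, ?_, fun u v _ => rfl⟩
    simpa using Seg.refl P _
  | succ n ih =>
    intro c x y hc hP
    obtain ⟨c1, hs, hf⟩ := ih c x y (fun i hi => hc i (by omega)) (fun i hi => hP i (by omega))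
    have hn := hc n (by omega)
    have hPn := hP n (by omega)
    have e1 : c1 (x + a * n, y + b * n) = s1 := by
      rw [hf _ _ (by
        intro i hi h
        rcases ha with rfl | rfl <;> omega)]
      exact hn.1
    have e2 : c1 (x + a * n, y + b * n + b) = s2 := by
      rw [hf _ _ (by
        intro i hi h
        rcases ha with rfl | rfl <;> omega)]
      exact hn.2
    have t1 := seg_gen (P := P) c1 (x + a * n) (y + b * n) d1 s1 e1 hPn.1
      (x + a * n) (y + b * n + b) d2 ht1 (by rw [hd2]; simp)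
    have t2 := seg_gen (P := P) (Function.update c1 (x + a * n, y + b * n) (s1 + 1))
      (x + a * n) (y + b * n + b) d2 s2
      (by rw [upd_ne _ _ _ _ _ _ (by right; rcases hb with rfl | rfl <;> omega)]; exact e2) hPn.2
      (x + a * (n + 1 : ℕ)) (y + b * (n + 1 : ℕ)) d1 ht2
      (by rw [hd1]; push_cast; simp only [Prod.mk_add_mk, Prod.mk.injEq]; constructor <;> ring)
    refine ⟨_, ((hs.trans t1).trans t2).mono le_rfl (Set.empty_subset _), ?_⟩
    intro u v huv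
    have hlast := huv n (by omega)
    rw [upd_ne _ _ _ _ _ _ (by
        by_contra hcon
        push Not at hcon
        exact hlast ⟨hcon.1, Or.inr hcon.2⟩),
      upd_ne _ _ _ _ _ _ (by
        by_contra hcon
        push Not at hcon
        exact hlast ⟨hcon.1, Or.inl hcon.2⟩)]
    exact hf u v (fun i hi => huv i (by omega))

/-! ### The exit gadgets -/

lemma exitRight {P : Set (ℤ × ℤ)} (c : ℤ × ℤ → Fin 2) (M : ℤ)
    (h1 : c (M, -1) = 1) (h2 : c (M, -2) = 0) (h3 : c (M + 1, -2) = 0) (h4 : c (M + 1, -1) = 0)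
    (hP1 : (M, -1) ∈ P) (hP2 : (M, -2) ∈ P) (hP3 : (M + 1, -2) ∈ P) (hP4 : (M + 1, -1) ∈ P) :
    ∃ c', Seg P ∅ ⟨c, (M, -1), Dir.E⟩ ⟨c', (M - 1, -2), Dir.W⟩ ∧
      c' (M, -1) = 1 ∧ c' (M + 1, -1) = 1 ∧
      (∀ x y, ((x ≠ M ∧ x ≠ M + 1) ∨ (y ≠ -1 ∧ y ≠ -2)) → c' (x, y) = c (x, y)) := by
  have t1 := seg_R (P := P) c M (-1) Dir.E h1 hP1 M (-2) Dir.S rfl (by simp [Dir.vec])
  set c1 := Function.update c (M, -1) 0 with hc1
  have t2 := seg_L (P := P) c1 M (-2) Dir.S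
    (by rw [hc1, upd_ne _ _ _ _ _ _ (by omega)]; exact h2) hP2 (M + 1) (-2) Dir.E rfl
    (by simp [Dir.vec])
  set c2 := Function.update c1 (M, -2) 1 with hc2
  have t3 := seg_L (P := P) c2 (M + 1) (-2) Dir.E
    (by rw [hc2, upd_ne _ _ _ _ _ _ (by omega), hc1, upd_ne _ _ _ _ _ _ (by omega)]; exact h3)
    hP3 (M + 1) (-1) Dir.N rfl (by simp [Dir.vec])
  set c3 := Function.update c2 (M + 1, -2) 1 with hc3
  have t4 := seg_L (P := P) c3 (M + 1) (-1) Dir.N
    (by rw [hc3, upd_ne _ _ _ _ _ _ (by omega), hc2, upd_ne _ _ _ _ _ _ (by omega), hc1,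
          upd_ne _ _ _ _ _ _ (by omega)]; exact h4)
    hP4 M (-1) Dir.W rfl (by simp [Dir.vec])
  set c4 := Function.update c3 (M + 1, -1) 1 with hc4
  have t5 := seg_L (P := P) c4 M (-1) Dir.W
    (by rw [hc4, upd_ne _ _ _ _ _ _ (by omega), hc3, upd_ne _ _ _ _ _ _ (by omega), hc2,
          upd_ne _ _ _ _ _ _ (by omega), hc1]; exact upd_same _ _ _)
    hP1 M (-2) Dir.S rfl (by simp [Dir.vec])
  set c5 := Function.update c4 (M, -1) 1 with hc5
  have t6 := seg_R (P := P) c5 M (-2) Dir.S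
    (by rw [hc5, upd_ne _ _ _ _ _ _ (by omega), hc4, upd_ne _ _ _ _ _ _ (by omega), hc3,
          upd_ne _ _ _ _ _ _ (by omega), hc2]; exact upd_same _ _ _)
    hP2 (M - 1) (-2) Dir.W rfl (by simp [Dir.vec]; ring)
  refine ⟨_, (((((t1.trans t2).trans t3).trans t4).trans t5).trans t6).mono le_rfl
    (Set.empty_subset _), ?_, ?_, ?_⟩
  · rw [upd_ne _ _ _ _ _ _ (by omega), hc5]; exact upd_same _ _ _
  · rw [upd_ne _ _ _ _ _ _ (by omega), hc5, upd_ne _ _ _ _ _ _ (by omega), hc4]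
    exact upd_same _ _ _
  · intro x y hxy
    rw [upd_ne _ _ _ _ _ _ (by omega), hc5, upd_ne _ _ _ _ _ _ (by omega), hc4,
      upd_ne _ _ _ _ _ _ (by omega), hc3, upd_ne _ _ _ _ _ _ (by omega), hc2,
      upd_ne _ _ _ _ _ _ (by omega), hc1, upd_ne _ _ _ _ _ _ (by omega)]

lemma exitLeft {P : Set (ℤ × ℤ)} (c : ℤ × ℤ → Fin 2) (M : ℤ)
    (h1 : c (M, 0) = 1) (h2 : c (M, 1) = 0) (h3 : c (M - 1, 1) = 0) (h4 : c (M - 1, 0) = 0)
    (hP1 : (M, 0) ∈ P) (hP2 : (M, 1) ∈ P) (hP3 : (M - 1, 1) ∈ P) (hP4 : (M - 1, 0) ∈ P) :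
    ∃ c', Seg P ∅ ⟨c, (M, 0), Dir.W⟩ ⟨c', (M + 1, 1), Dir.E⟩ ∧
      c' (M, 0) = 1 ∧ c' (M - 1, 0) = 1 ∧
      (∀ x y, ((x ≠ M ∧ x ≠ M - 1) ∨ (y ≠ 0 ∧ y ≠ 1)) → c' (x, y) = c (x, y)) := by
  have t1 := seg_R (P := P) c M 0 Dir.W h1 hP1 M 1 Dir.N rfl (by simp [Dir.vec])
  set c1 := Function.update c (M, 0) 0 with hc1
  have t2 := seg_L (P := P) c1 M 1 Dir.N
    (by rw [hc1, upd_ne _ _ _ _ _ _ (by omega)]; exact h2) hP2 (M - 1) 1 Dir.W rfl
    (by simp [Dir.vec]; ring)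
  set c2 := Function.update c1 (M, 1) 1 with hc2
  have t3 := seg_L (P := P) c2 (M - 1) 1 Dir.W
    (by rw [hc2, upd_ne _ _ _ _ _ _ (by omega), hc1, upd_ne _ _ _ _ _ _ (by omega)]; exact h3)
    hP3 (M - 1) 0 Dir.S rfl (by simp [Dir.vec])
  set c3 := Function.update c2 (M - 1, 1) 1 with hc3
  have t4 := seg_L (P := P) c3 (M - 1) 0 Dir.S
    (by rw [hc3, upd_ne _ _ _ _ _ _ (by omega), hc2, upd_ne _ _ _ _ _ _ (by omega), hc1,
          upd_ne _ _ _ _ _ _ (by omega)]; exact h4)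
    hP4 M 0 Dir.E rfl (by simp [Dir.vec])
  set c4 := Function.update c3 (M - 1, 0) 1 with hc4
  have t5 := seg_L (P := P) c4 M 0 Dir.E
    (by rw [hc4, upd_ne _ _ _ _ _ _ (by omega), hc3, upd_ne _ _ _ _ _ _ (by omega), hc2,
          upd_ne _ _ _ _ _ _ (by omega), hc1]; exact upd_same _ _ _)
    hP1 M 1 Dir.N rfl (by simp [Dir.vec])
  set c5 := Function.update c4 (M, 0) 1 with hc5
  have t6 := seg_R (P := P) c5 M 1 Dir.N
    (by rw [hc5, upd_ne _ _ _ _ _ _ (by omega), hc4, upd_ne _ _ _ _ _ _ (by omega), hc3,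
          upd_ne _ _ _ _ _ _ (by omega), hc2]; exact upd_same _ _ _)
    hP2 (M + 1) 1 Dir.E rfl (by simp [Dir.vec])
  refine ⟨_, (((((t1.trans t2).trans t3).trans t4).trans t5).trans t6).mono le_rfl
    (Set.empty_subset _), ?_, ?_, ?_⟩
  · rw [upd_ne _ _ _ _ _ _ (by omega), hc5]; exact upd_same _ _ _
  · rw [upd_ne _ _ _ _ _ _ (by omega), hc5, upd_ne _ _ _ _ _ _ (by omega), hc4]
    exact upd_same _ _ _
  · intro x y hxy
    rw [upd_ne _ _ _ _ _ _ (by omega), hc5, upd_ne _ _ _ _ _ _ (by omega), hc4,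
      upd_ne _ _ _ _ _ _ (by omega), hc3, upd_ne _ _ _ _ _ _ (by omega), hc2,
      upd_ne _ _ _ _ _ _ (by omega), hc1, upd_ne _ _ _ _ _ _ (by omega)]

/-! ### One round -/

/-- The requirements on the grid at the beginning of round `k` (with `M = 4 k + 4`). -/
structure Req (M : ℤ) (c : ℤ × ℤ → Fin 2) : Prop where
  b0 : c (0, 0) = 1
  b1 : c (0, -1) = 1
  rt : ∀ x, 1 ≤ x → c (x, 0) = if M ≤ x ∧ x % 4 = 0 then 1 else 0
  rb : ∀ x, 1 ≤ x → c (x, -1) = if M ≤ x - 1 ∧ x % 4 = 1 then 0 else 1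
  lb : ∀ x, x ≤ -1 → c (x, -1) = if x ≤ -1 - M ∧ x % 4 = 3 then 1 else 0
  lt : ∀ x, x ≤ -1 → c (x, 0) = if x + 1 ≤ -1 - M ∧ x % 4 = 2 then 0 else 1
  se : ∀ x y, 0 ≤ x → y ≤ -2 → M + 1 ≤ x - y → c (x, y) =
    if (x + y) % 2 = 0 ∧ ¬ (y = -2 ∧ M ≤ x ∧ x % 4 = 0) then 1 else 0
  sw : ∀ x y, x ≤ -1 → y ≤ -2 → M + 2 ≤ -x - y → c (x, y) = if (x + y) % 2 = 0 then 0 else 1
  ne : ∀ x y, 2 ≤ x → 1 ≤ y → M + 4 ≤ x + y → c (x, y) = if (x + y) % 2 = 0 then 0 else 1
  nw : ∀ x y, x ≤ 1 → 1 ≤ y → M + 1 ≤ y - x → c (x, y) =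
    if (x + y) % 2 = 0 ∧ ¬ (y = 1 ∧ x ≤ -1 - M ∧ x % 4 = 3) then 1 else 0

/-- The cells which may be visited during round `k`. -/
def Pk (M : ℤ) : Set (ℤ × ℤ) := {p | p.2 = 0 ∨ p.2 = -1 ∨ M ≤ |p.1| + |p.2|}

/-- The cells which are certainly visited during round `k`. -/
def Ak (M : ℤ) : Set (ℤ × ℤ) := {p | (p.2 = 0 ∨ p.2 = -1) ∧ -M ≤ p.1 ∧ p.1 ≤ M - 1}

lemma mem_Pk_row {M : ℤ} : ∀ x y : ℤ, (y = 0 ∨ y = -1) → (x, y) ∈ Pk M := by
  intro x y h
  rcases h with h | h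
  · exact Or.inl h
  · exact Or.inr (Or.inl h)

lemma mem_Pk_far {M x y : ℤ} (h : M ≤ x - y ∨ M ≤ -x - y ∨ M ≤ x + y ∨ M ≤ y - x) :
    (x, y) ∈ Pk M := by
  right; right
  simp only
  have h1 := le_abs_self x
  have h2 := neg_abs_le x
  have h3 := le_abs_self y
  have h4 := neg_abs_le y
  rcases h with h | h | h | h <;> linarith

lemma halfA (M : ℤ) (hM : 4 ≤ M) (hM4 : M % 4 = 0) (c : ℤ × ℤ → Fin 2) (h : Req M c) :
    ∃ c', Seg (Pk M) {p | (p.2 = 0 ∨ p.2 = -1) ∧ 0 ≤ p.1 ∧ p.1 ≤ M - 1}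
        ⟨c, (M, 0), Dir.S⟩ ⟨c', (-1 - M, -1), Dir.N⟩ ∧
      (∀ x, 1 ≤ x → x < M → c' (x, 0) = 0 ∧ c' (x, -1) = 1) ∧
      c' (M, 0) = 0 ∧ c' (M, -1) = 1 ∧ c' (M + 1, -1) = 1 ∧ c' (0, 0) = 0 ∧ c' (0, -1) = 0 ∧
      (∀ x y, ((x ≤ -1 ∧ -1 ≤ y) ∨ (M < x ∧ y = 0) ∨ (M + 1 < x ∧ y = -1) ∨ 1 ≤ y ∨
        (y ≤ -2 ∧ 0 ≤ x ∧ M + 4 ≤ x - y) ∨ (y ≤ -2 ∧ x ≤ -1 ∧ M + 4 ≤ -x - y)) →
        c' (x, y) = c (x, y)) := by
  obtain ⟨n, hn⟩ : ∃ n : ℕ, M = n := ⟨M.toNat, by omega⟩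
  -- step A
  have hA := seg_R (P := Pk M) c M 0 Dir.S (by rw [h.rt M (by omega), if_pos ⟨le_rfl, hM4⟩])
    (mem_Pk_row _ _ (Or.inl rfl)) (M - 1) 0 Dir.W rfl (by simp [Dir.vec]; ring)
  set c1 := Function.update c (M, 0) 0 with hc1
  have f1 : ∀ x y, (x ≠ M ∨ y ≠ 0) → c1 (x, y) = c (x, y) := by
    intro x y hxy; rw [hc1, upd_ne _ _ _ _ _ _ (by omega)]
  have v1 : c1 (M, 0) = 0 := by rw [hc1]; exact upd_same _ _ _
  clear_value c1
  -- step B
  obtain ⟨c2, hB, w2, f2⟩ := passLeft (P := Pk M) mem_Pk_row (n - 1) c1 (M - 1) 0 (by omega) (by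
    intro x hx1 hx2
    rw [f1 _ _ (by omega), f1 _ _ (by omega), h.rt x (by omega), h.rb x (by omega),
      if_neg (by omega), if_neg (by omega)]
    exact ⟨rfl, rfl⟩)
  rw [hrow_odd (show (M - 1) % 2 = 1 by omega), hrow_even (show (0:ℤ) % 2 = 0 by norm_num)] at hB
  -- step C
  have hC1 := seg_R (P := Pk M) c2 0 (-1) Dir.W
    (by rw [f2 _ _ (by omega), f1 _ _ (by omega)]; exact h.b1)
    (mem_Pk_row _ _ (Or.inr rfl)) 0 0 Dir.N rfl (by simp [Dir.vec])
  set c3 := Function.update c2 (0, -1) 0 with hc3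
  have hC2 := seg_R (P := Pk M) c3 0 0 Dir.N
    (by rw [hc3, upd_ne _ _ _ _ _ _ (by omega), f2 _ _ (by omega), f1 _ _ (by omega)]
        exact h.b0)
    (mem_Pk_row _ _ (Or.inl rfl)) 1 0 Dir.E rfl (by simp [Dir.vec])
  set c4 := Function.update c3 (0, 0) 0 with hc4
  have f4 : ∀ x y, (x ≠ 0 ∨ (y ≠ 0 ∧ y ≠ -1)) → c4 (x, y) = c2 (x, y) := by
    intro x y hxy
    rw [hc4, upd_ne _ _ _ _ _ _ (by omega), hc3, upd_ne _ _ _ _ _ _ (by omega)]
  have v4a : c4 (0, 0) = 0 := by rw [hc4]; exact upd_same _ _ _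
  have v4b : c4 (0, -1) = 0 := by
    rw [hc4, upd_ne _ _ _ _ _ _ (by omega), hc3]; exact upd_same _ _ _
  clear_value c4 c3
  -- step D
  obtain ⟨c5, hD, w5, f5⟩ := passRight (P := Pk M) mem_Pk_row (n - 1) c4 1 M (by omega) (by
    intro x hx1 hx2
    rw [f4 _ _ (by omega), f4 _ _ (by omega)]
    exact w2 x (by omega) (by omega))
  rw [hrow_odd (show (1:ℤ) % 2 = 1 by norm_num), hrow_even (show M % 2 = 0 by omega)] at hD
  have g5 : ∀ x y, ((x ≤ -1 ∨ M < x) ∨ (y ≠ 0 ∧ y ≠ -1) ∨ (x = M ∧ y = -1)) →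
      c5 (x, y) = c (x, y) := by
    intro x y hxy
    rw [f5 _ _ (by omega), f4 _ _ (by omega), f2 _ _ (by omega), f1 _ _ (by omega)]
  -- step E
  obtain ⟨c6, hE, v6a, v6b, f6⟩ := exitRight (P := Pk M) c5 M
    (by rw [g5 _ _ (by omega), h.rb M (by omega), if_neg (by omega)])
    (by rw [g5 _ _ (by omega), h.se M (-2) (by omega) (by omega) (by omega), if_neg (by omega)])
    (by rw [g5 _ _ (by omega), h.se (M + 1) (-2) (by omega) (by omega) (by omega),
          if_neg (by omega)])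
    (by rw [g5 _ _ (by omega), h.rb (M + 1) (by omega), if_pos (by omega)])
    (mem_Pk_row _ _ (Or.inr rfl)) (mem_Pk_far (by omega)) (mem_Pk_far (by omega))
    (mem_Pk_row _ _ (Or.inr rfl))
  -- step F
  obtain ⟨c7, hF, f7⟩ := diag (P := Pk M) Dir.W Dir.S (-1) (-1) (Or.inr rfl) (Or.inr rfl) 0 1
    rfl rfl rfl rfl n c6 (M - 1) (-2) (by
      intro i hi
      rw [f6 _ _ (by omega), g5 _ _ (by omega), f6 _ _ (by omega), g5 _ _ (by omega),
        h.se _ _ (by omega) (by omega) (by omega), h.se _ _ (by omega) (by omega) (by omega),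
        if_neg (by omega), if_pos (by omega)]
      exact ⟨rfl, rfl⟩) (by
      intro i hi
      exact ⟨mem_Pk_far (by omega), mem_Pk_far (by omega)⟩)
  have g7 : ∀ x y, ((x ≤ -1 ∨ y = 0 ∨ (y = -1 ∧ x ≠ M ∧ x ≠ M + 1) ∨ 1 ≤ y ∨ M + 4 ≤ x - y)) →
      c7 (x, y) = c5 (x, y) := by
    intro x y hxy
    rw [f7 _ _ (by intro i hi hh; omega), f6 _ _ (by omega)]
  -- step G
  obtain ⟨c8, hG, f8⟩ := diag (P := Pk M) Dir.W Dir.N (-1) 1 (Or.inr rfl) (Or.inl rfl) 1 0
    rfl rfl rfl rfl n c7 (M - 1 + -1 * n) (-2 + -1 * n) (by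
      intro i hi
      rw [g7 _ _ (by omega), g5 _ _ (by omega), g7 _ _ (by omega), g5 _ _ (by omega),
        h.sw _ _ (by omega) (by omega) (by omega), h.sw _ _ (by omega) (by omega) (by omega),
        if_neg (by omega), if_pos (by omega)]
      exact ⟨rfl, rfl⟩) (by
      intro i hi
      exact ⟨mem_Pk_far (by omega), mem_Pk_far (by omega)⟩)
  have e8x : M - 1 + -1 * (n:ℤ) + -1 * n = -1 - M := by omega
  have e8y : -2 + -1 * (n:ℤ) + 1 * n = -2 := by omega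
  rw [e8x, e8y] at hG
  have g8 : ∀ x y, (0 ≤ x ∨ -1 ≤ y ∨ M + 3 ≤ -x - y ∧ x < -M ∨ M + 4 ≤ -x - y) →
      c8 (x, y) = c7 (x, y) := by
    intro x y hxy
    rw [f8 _ _ (by intro i hi hh; omega)]
  -- the last horizontal cell
  have hH := seg_R (P := Pk M) c8 (-1 - M) (-2) Dir.W
    (by rw [g8 _ _ (by omega), g7 _ _ (by omega), g5 _ _ (by omega),
          h.sw _ _ (by omega) (by omega) (by omega), if_neg (by omega)])
    (mem_Pk_far (by omega)) (-1 - M) (-1) Dir.N rfl (by simp [Dir.vec])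
  set c9 := Function.update c8 (-1 - M, -2) 0 with hc9
  have f9 : ∀ x y, (x ≠ -1 - M ∨ y ≠ -2) → c9 (x, y) = c8 (x, y) := by
    intro x y hxy; rw [hc9, upd_ne _ _ _ _ _ _ (by omega)]
  clear_value c9
  refine ⟨c9, ?_, ?_, ?_, ?_, ?_, ?_, ?_, ?_⟩
  · have hall := ((((((((hA.trans hB).trans hC1).trans hC2).trans hD).trans hE).trans hF).trans
      hG).trans hH)
    apply hall.mono le_rfl
    rintro ⟨x, y⟩ ⟨h1, h2, h3⟩
    simp only at h1 h2 h3
    by_cases hx : x = 0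
    · subst hx
      rcases h1 with h1 | h1
      · subst h1
        simp
      · subst h1
        simp
    · left; left; left; left; left; left; left; right
      exact ⟨by simp only; omega, by simp only; omega, h1⟩
  · intro x h1 h2
    rw [f9 _ _ (by omega), g8 _ _ (by omega), g7 _ _ (by omega), f9 _ _ (by omega),
      g8 _ _ (by omega), g7 _ _ (by omega)]
    exact w5 x h1 h2
  · rw [f9 _ _ (by omega), g8 _ _ (by omega), g7 _ _ (by omega), f5 _ _ (by omega),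
      f4 _ _ (by omega), f2 _ _ (by omega)]
    exact v1
  · rw [f9 _ _ (by omega), g8 _ _ (by omega), f7 _ _ (by intro i hi hh; omega)]
    exact v6a
  · rw [f9 _ _ (by omega), g8 _ _ (by omega), f7 _ _ (by intro i hi hh; omega)]
    exact v6b
  · rw [f9 _ _ (by omega), g8 _ _ (by omega), g7 _ _ (by omega), f5 _ _ (by omega)]
    exact v4a
  · rw [f9 _ _ (by omega), g8 _ _ (by omega), g7 _ _ (by omega), f5 _ _ (by omega)]
    exact v4b
  · intro x y hxy
    rw [f9 _ _ (by omega), g8 _ _ (by omega), g7 _ _ (by omega), g5 _ _ (by omega)]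

lemma halfB (M : ℤ) (hM : 4 ≤ M) (hM4 : M % 4 = 0) (c : ℤ × ℤ → Fin 2)
    (b0 : c (0, 0) = 0) (b1 : c (0, -1) = 0)
    (lb : ∀ x, x ≤ -1 → c (x, -1) = if x ≤ -1 - M ∧ x % 4 = 3 then 1 else 0)
    (lt : ∀ x, x ≤ -1 → c (x, 0) = if x + 1 ≤ -1 - M ∧ x % 4 = 2 then 0 else 1)
    (ne : ∀ x y, 2 ≤ x → 1 ≤ y → M + 4 ≤ x + y → c (x, y) = if (x + y) % 2 = 0 then 0 else 1)
    (nw : ∀ x y, x ≤ 1 → 1 ≤ y → M + 1 ≤ y - x → c (x, y) =
      if (x + y) % 2 = 0 ∧ ¬ (y = 1 ∧ x ≤ -1 - M ∧ x % 4 = 3) then 1 else 0) :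
    ∃ c', Seg (Pk M) {p | (p.2 = 0 ∨ p.2 = -1) ∧ -M ≤ p.1 ∧ p.1 ≤ -1}
        ⟨c, (-1 - M, -1), Dir.N⟩ ⟨c', (M + 4, 0), Dir.S⟩ ∧
      (∀ x, -M ≤ x → x ≤ -1 → c' (x, 0) = 1 ∧ c' (x, -1) = 0) ∧
      c' (-1 - M, -1) = 0 ∧ c' (-1 - M, 0) = 1 ∧ c' (-2 - M, 0) = 1 ∧ c' (0, 0) = 1 ∧
      c' (0, -1) = 1 ∧
      (∀ x y, ((1 ≤ x ∧ y ≤ 0) ∨ (x < -1 - M ∧ y = -1) ∨ (x < -2 - M ∧ y = 0) ∨ y ≤ -2 ∨
        (1 ≤ y ∧ x ≤ 1 ∧ M + 4 ≤ y - x) ∨ (1 ≤ y ∧ 2 ≤ x ∧ M + 6 ≤ x + y)) →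
        c' (x, y) = c (x, y)) := by
  obtain ⟨n, hn⟩ : ∃ n : ℕ, M = n := ⟨M.toNat, by omega⟩
  -- step H
  have hA := seg_R (P := Pk M) c (-1 - M) (-1) Dir.N
    (by rw [lb (-1 - M) (by omega), if_pos (by omega)])
    (mem_Pk_row _ _ (Or.inr rfl)) (-M) (-1) Dir.E rfl (by simp [Dir.vec]; ring)
  set c1 := Function.update c (-1 - M, -1) 0 with hc1
  have f1 : ∀ x y, (x ≠ -1 - M ∨ y ≠ -1) → c1 (x, y) = c (x, y) := by
    intro x y hxy; rw [hc1, upd_ne _ _ _ _ _ _ (by omega)]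
  have v1 : c1 (-1 - M, -1) = 0 := by rw [hc1]; exact upd_same _ _ _
  clear_value c1
  -- step I
  obtain ⟨c2, hB, w2, f2⟩ := passRight (P := Pk M) mem_Pk_row n c1 (-M) 0 (by omega) (by
    intro x hx1 hx2
    rw [f1 _ _ (by omega), f1 _ _ (by omega), lt x (by omega), lb x (by omega),
      if_neg (by omega), if_neg (by omega)]
    exact ⟨rfl, rfl⟩)
  rw [hrow_even (show (-M) % 2 = 0 by omega), hrow_even (show (0:ℤ) % 2 = 0 by norm_num)] at hB
  -- step J
  have hC1 := seg_L (P := Pk M) c2 0 (-1) Dir.E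
    (by rw [f2 _ _ (by omega), f1 _ _ (by omega)]; exact b1)
    (mem_Pk_row _ _ (Or.inr rfl)) 0 0 Dir.N rfl (by simp [Dir.vec])
  set c3 := Function.update c2 (0, -1) 1 with hc3
  have hC2 := seg_L (P := Pk M) c3 0 0 Dir.N
    (by rw [hc3, upd_ne _ _ _ _ _ _ (by omega), f2 _ _ (by omega), f1 _ _ (by omega)]
        exact b0)
    (mem_Pk_row _ _ (Or.inl rfl)) (-1) 0 Dir.W rfl (by simp [Dir.vec])
  set c4 := Function.update c3 (0, 0) 1 with hc4
  have f4 : ∀ x y, (x ≠ 0 ∨ (y ≠ 0 ∧ y ≠ -1)) → c4 (x, y) = c2 (x, y) := by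
    intro x y hxy
    rw [hc4, upd_ne _ _ _ _ _ _ (by omega), hc3, upd_ne _ _ _ _ _ _ (by omega)]
  have v4a : c4 (0, 0) = 1 := by rw [hc4]; exact upd_same _ _ _
  have v4b : c4 (0, -1) = 1 := by
    rw [hc4, upd_ne _ _ _ _ _ _ (by omega), hc3]; exact upd_same _ _ _
  clear_value c4 c3
  -- step K
  obtain ⟨c5, hD, w5, f5⟩ := passLeft (P := Pk M) mem_Pk_row n c4 (-1) (-1 - M) (by omega) (by
    intro x hx1 hx2
    rw [f4 _ _ (by omega), f4 _ _ (by omega)]
    exact w2 x (by omega) (by omega))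
  rw [hrow_odd (show (-1:ℤ) % 2 = 1 by norm_num), hrow_odd (show (-1 - M) % 2 = 1 by omega)] at hD
  have g5 : ∀ x y, ((1 ≤ x ∨ x < -1 - M) ∨ (y ≠ 0 ∧ y ≠ -1) ∨ (x = -1 - M ∧ y = 0)) →
      c5 (x, y) = c (x, y) := by
    intro x y hxy
    rw [f5 _ _ (by omega), f4 _ _ (by omega), f2 _ _ (by omega), f1 _ _ (by omega)]
  -- step L
  obtain ⟨c6, hE, v6a, v6b, f6⟩ := exitLeft (P := Pk M) c5 (-1 - M)
    (by rw [g5 _ _ (by omega), lt (-1 - M) (by omega), if_neg (by omega)])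
    (by rw [g5 _ _ (by omega), nw (-1 - M) 1 (by omega) (by omega) (by omega), if_neg (by omega)])
    (by rw [g5 _ _ (by omega), nw (-1 - M - 1) 1 (by omega) (by omega) (by omega),
          if_neg (by omega)])
    (by rw [g5 _ _ (by omega), lt (-1 - M - 1) (by omega), if_pos (by omega)])
    (mem_Pk_row _ _ (Or.inl rfl)) (mem_Pk_far (by omega)) (mem_Pk_far (by omega))
    (mem_Pk_row _ _ (Or.inl rfl))
  -- step M
  obtain ⟨c7, hF, f7⟩ := diag (P := Pk M) Dir.E Dir.N 1 1 (Or.inl rfl) (Or.inl rfl) 0 1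
    rfl rfl rfl rfl (n + 2) c6 (-1 - M + 1) 1 (by
      intro i hi
      rw [f6 _ _ (by omega), g5 _ _ (by omega), f6 _ _ (by omega), g5 _ _ (by omega),
        nw _ _ (by omega) (by omega) (by omega), nw _ _ (by omega) (by omega) (by omega),
        if_neg (by omega), if_pos (by omega)]
      exact ⟨rfl, rfl⟩) (by
      intro i hi
      exact ⟨mem_Pk_far (by omega), mem_Pk_far (by omega)⟩)
  have g7 : ∀ x y, (2 ≤ x ∨ y ≤ -1 ∨ (y = 0 ∧ x ≠ -1 - M ∧ x ≠ -2 - M) ∨ M + 4 ≤ y - x) →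
      c7 (x, y) = c5 (x, y) := by
    intro x y hxy
    rw [f7 _ _ (by intro i hi hh; omega), f6 _ _ (by omega)]
  -- step N
  obtain ⟨c8, hG, f8⟩ := diag (P := Pk M) Dir.E Dir.S 1 (-1) (Or.inl rfl) (Or.inr rfl) 1 0
    rfl rfl rfl rfl (n + 2) c7 (-1 - M + 1 + 1 * (n + 2 : ℕ)) (1 + 1 * (n + 2 : ℕ)) (by
      intro i hi
      push_cast
      rw [g7 _ _ (by omega), g5 _ _ (by omega), g7 _ _ (by omega), g5 _ _ (by omega),
        ne _ _ (by omega) (by omega) (by omega), ne _ _ (by omega) (by omega) (by omega),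
        if_neg (by omega), if_pos (by omega)]
      exact ⟨rfl, rfl⟩) (by
      intro i hi
      push_cast
      exact ⟨mem_Pk_far (by omega), mem_Pk_far (by omega)⟩)
  push_cast at hF hG
  have e8x : -1 - M + 1 + 1 * ((n:ℤ) + 2) + 1 * (n + 2) = M + 4 := by omega
  have e8y : 1 + 1 * ((n:ℤ) + 2) + -1 * (n + 2) = 1 := by omega
  rw [e8x, e8y] at hG
  have g8 : ∀ x y, (x ≤ 1 ∨ y ≤ 0 ∨ M + 6 ≤ x + y ∨ (x = M + 4 ∧ y = 1)) →
      c8 (x, y) = c7 (x, y) := by
    intro x y hxy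
    rw [f8 _ _ (by intro i hi hh; push_cast at hh; omega)]
  -- the last horizontal cell
  have hH := seg_R (P := Pk M) c8 (M + 4) 1 Dir.E
    (by rw [g8 _ _ (by omega), g7 _ _ (by omega), g5 _ _ (by omega),
          ne _ _ (by omega) (by omega) (by omega), if_neg (by omega)])
    (mem_Pk_far (by omega)) (M + 4) 0 Dir.S rfl (by simp [Dir.vec])
  set c9 := Function.update c8 (M + 4, 1) 0 with hc9
  have f9 : ∀ x y, (x ≠ M + 4 ∨ y ≠ 1) → c9 (x, y) = c8 (x, y) := by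
    intro x y hxy; rw [hc9, upd_ne _ _ _ _ _ _ (by omega)]
  clear_value c9
  have e6 : (-1 - M - 1 : ℤ) = -2 - M := by ring
  rw [e6] at v6b f6
  refine ⟨c9, ?_, ?_, ?_, ?_, ?_, ?_, ?_, ?_⟩
  · have hall := ((((((((hA.trans hB).trans hC1).trans hC2).trans hD).trans hE).trans hF).trans
      hG).trans hH)
    apply hall.mono le_rfl
    rintro ⟨x, y⟩ ⟨h1, h2, h3⟩
    simp only at h1 h2 h3
    left; left; left; left; left; left; left; right
    exact ⟨h2, by simp only; omega, h1⟩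
  · intro x h1 h2
    rw [f9 _ _ (by omega), g8 _ _ (by omega), g7 _ _ (by omega), f9 _ _ (by omega),
      g8 _ _ (by omega), g7 _ _ (by omega)]
    exact w5 x (by omega) h2
  · rw [f9 _ _ (by omega), g8 _ _ (by omega), g7 _ _ (by omega), f5 _ _ (by omega),
      f4 _ _ (by omega), f2 _ _ (by omega)]
    exact v1
  · rw [f9 _ _ (by omega), g8 _ _ (by omega), f7 _ _ (by intro i hi hh; omega)]
    exact v6a
  · rw [f9 _ _ (by omega), g8 _ _ (by omega), f7 _ _ (by intro i hi hh; omega)]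
    exact v6b
  · rw [f9 _ _ (by omega), g8 _ _ (by omega), g7 _ _ (by omega), f5 _ _ (by omega)]
    exact v4a
  · rw [f9 _ _ (by omega), g8 _ _ (by omega), g7 _ _ (by omega), f5 _ _ (by omega)]
    exact v4b
  · intro x y hxy
    rw [f9 _ _ (by omega), g8 _ _ (by omega), g7 _ _ (by omega), g5 _ _ (by omega)]

lemma round (M : ℤ) (hM : 4 ≤ M) (hM4 : M % 4 = 0) (c : ℤ × ℤ → Fin 2) (h : Req M c) :
    ∃ c', Seg (Pk M) (Ak M) ⟨c, (M, 0), Dir.S⟩ ⟨c', (M + 4, 0), Dir.S⟩ ∧ Req (M + 4) c' := by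
  obtain ⟨c1, h1, a1, a2, a3, a4, a5, a6, fa⟩ := halfA M hM hM4 c h
  obtain ⟨c2, h2, e1, e2, e3, e4, e5, e6, fb⟩ := halfB M hM hM4 c1 a5 a6
    (by intro x hx; rw [fa _ _ (by omega)]; exact h.lb x hx)
    (by intro x hx; rw [fa _ _ (by omega)]; exact h.lt x hx)
    (by intro x y hx hy hxy; rw [fa _ _ (by omega)]; exact h.ne x y hx hy hxy)
    (by intro x y hx hy hxy; rw [fa _ _ (by omega)]; exact h.nw x y hx hy hxy)
  refine ⟨c2, ?_, ?_⟩
  · apply (h1.trans h2).mono le_rfl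
    rintro ⟨x, y⟩ ⟨k1, k2, k3⟩
    simp only at k1 k2 k3
    by_cases hx : 0 ≤ x
    · left; exact ⟨k1, hx, k3⟩
    · right; exact ⟨k1, k2, by simp only; omega⟩
  · refine ⟨e5, e6, ?_, ?_, ?_, ?_, ?_, ?_, ?_, ?_⟩
    · intro x hx
      rw [fb _ _ (by omega)]
      rcases lt_trichotomy x M with hlt | heq | hgt
      · rw [(a1 x hx hlt).1, if_neg (by omega)]
      · subst heq
        rw [a2, if_neg (by omega)]
      · rw [fa _ _ (by omega), h.rt x hx]
        split_ifs with p1 p2 p2 <;> first | rfl | (exfalso; omega)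
    · intro x hx
      rw [fb _ _ (by omega)]
      rcases lt_trichotomy x M with hlt | heq | hgt
      · rw [(a1 x hx hlt).2, if_neg (by omega)]
      · subst heq
        rw [a3, if_neg (by omega)]
      · by_cases hx1 : x = M + 1
        · subst hx1
          rw [a4, if_neg (by omega)]
        · rw [fa _ _ (by omega), h.rb x hx]
          split_ifs with p1 p2 p2 <;> first | rfl | (exfalso; omega)
    · intro x hx
      by_cases hx1 : -M ≤ x
      · rw [(e1 x hx1 hx).2, if_neg (by omega)]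
      · by_cases hx2 : x = -1 - M
        · subst hx2
          rw [e2, if_neg (by omega)]
        · rw [fb _ _ (by omega), fa _ _ (by omega), h.lb x hx]
          split_ifs with p1 p2 p2 <;> first | rfl | (exfalso; omega)
    · intro x hx
      by_cases hx1 : -M ≤ x
      · rw [(e1 x hx1 hx).1, if_neg (by omega)]
      · by_cases hx2 : x = -1 - M
        · subst hx2
          rw [e3, if_neg (by omega)]
        · by_cases hx3 : x = -2 - M
          · subst hx3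
            rw [e4, if_neg (by omega)]
          · rw [fb _ _ (by omega), fa _ _ (by omega), h.lt x hx]
            split_ifs with p1 p2 p2 <;> first | rfl | (exfalso; omega)
    · intro x y hx hy hxy
      rw [fb _ _ (by omega), fa _ _ (by omega), h.se x y hx hy (by omega)]
      split_ifs with p1 p2 p2 <;> first | rfl | (exfalso; omega)
    · intro x y hx hy hxy
      rw [fb _ _ (by omega), fa _ _ (by omega), h.sw x y hx hy (by omega)]
    · intro x y hx hy hxy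
      rw [fb _ _ (by omega), fa _ _ (by omega), h.ne x y hx hy (by omega)]
    · intro x y hx hy hxy
      rw [fb _ _ (by omega), fa _ _ (by omega), h.nw x y hx hy (by omega)]
      split_ifs with p1 p2 p2 <;> first | rfl | (exfalso; omega)

/-! ### The initial configuration and the main theorem -/

/-- The initial grid. -/
def grid0 (p : ℤ × ℤ) : Fin 2 :=
  if p.2 = 0 then
    if p.1 = 0 then 1
    else if 1 ≤ p.1 then (if 4 ≤ p.1 ∧ p.1 % 4 = 0 then 1 else 0)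
    else (if p.1 + 1 ≤ -5 ∧ p.1 % 4 = 2 then 0 else 1)
  else if p.2 = -1 then
    if p.1 = 0 then 1
    else if 1 ≤ p.1 then (if 4 ≤ p.1 - 1 ∧ p.1 % 4 = 1 then 0 else 1)
    else (if p.1 ≤ -5 ∧ p.1 % 4 = 3 then 1 else 0)
  else if p.2 ≤ -2 then
    if 0 ≤ p.1 then
      (if (p.1 + p.2) % 2 = 0 ∧ ¬ (p.2 = -2 ∧ 4 ≤ p.1 ∧ p.1 % 4 = 0) then 1 else 0)
    else (if (p.1 + p.2) % 2 = 0 then 0 else 1)
  else
    if 2 ≤ p.1 then (if (p.1 + p.2) % 2 = 0 then 0 else 1)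
    else (if (p.1 + p.2) % 2 = 0 ∧ ¬ (p.2 = 1 ∧ p.1 ≤ -5 ∧ p.1 % 4 = 3) then 1 else 0)

lemma req0 : Req 4 grid0 := by
  refine ⟨?_, ?_, ?_, ?_, ?_, ?_, ?_, ?_, ?_, ?_⟩
  · simp [grid0]
  · simp [grid0]
  · intro x hx
    simp only [grid0]
    rw [if_pos trivial, if_neg (by omega), if_pos hx]
  · intro x hx
    simp only [grid0]
    rw [if_neg (by omega), if_pos trivial, if_neg (by omega), if_pos hx]
  · intro x hx
    simp only [grid0]
    rw [if_neg (by omega), if_pos trivial, if_neg (by omega), if_neg (by omega)]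
    rfl
  · intro x hx
    simp only [grid0]
    rw [if_pos trivial, if_neg (by omega), if_neg (by omega)]
    rfl
  · intro x y hx hy _
    simp only [grid0]
    rw [if_neg (by omega), if_neg (by omega), if_pos hy, if_pos hx]
  · intro x y hx hy _
    simp only [grid0]
    rw [if_neg (by omega), if_neg (by omega), if_pos hy, if_neg (by omega)]
  · intro x y hx hy _
    simp only [grid0]
    rw [if_neg (by omega), if_neg (by omega), if_neg (by omega), if_pos hx]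
  · intro x y hx hy _
    simp only [grid0]
    rw [if_neg (by omega), if_neg (by omega), if_neg (by omega), if_neg (by omega)]
    rfl

/-- The initial configuration. -/
def C0 : Config 2 := ⟨grid0, (4, 0), Dir.S⟩

/-- Rounds. -/
lemma rounds (k : ℕ) : ∃ (T : ℕ) (c : ℤ × ℤ → Fin 2), k ≤ T ∧
    (step langton)^[T] C0 = ⟨c, (4 * k + 4, 0), Dir.S⟩ ∧ Req (4 * k + 4) c := by
  induction k with
  | zero => exact ⟨0, grid0, le_rfl, by simp [C0], by simpa using req0⟩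
  | succ k ih =>
    obtain ⟨T, c, hT, hC, hR⟩ := ih
    obtain ⟨c', ⟨n, hn, _, hA⟩, hR'⟩ := round (4 * k + 4) (by omega) (by omega) c hR
    obtain ⟨t, ht, _⟩ := hA (0, 0) ⟨Or.inl rfl, by simp only; omega, by simp only; omega⟩
    refine ⟨n + T, c', by omega, ?_, ?_⟩
    · rw [Function.iterate_add_apply, hC, hn]
      congr 2
    · have e : (4 * ((k + 1 : ℕ) : ℤ) + 4) = 4 * k + 4 + 4 := by push_cast; ring
      rw [e]
      exact hR'

lemma Pk_anti {M M' : ℤ} (h : M ≤ M') : Pk M' ⊆ Pk M := by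
  rintro p (hp | hp | hp)
  · exact Or.inl hp
  · exact Or.inr (Or.inl hp)
  · exact Or.inr (Or.inr (h.trans hp))

/-- From the beginning of round `k` on, only cells of `Pk` are visited. -/
lemma stay (t : ℕ) : ∀ (k : ℕ) (c : ℤ × ℤ → Fin 2), Req (4 * k + 4) c →
    ((step langton)^[t] ⟨c, (4 * k + 4, 0), Dir.S⟩).pos ∈ Pk (4 * k + 4) := by
  induction t using Nat.strong_induction_on with
  | _ t ih =>
    intro k c hR
    obtain ⟨c', ⟨n, hn, hP, hA⟩, hR'⟩ := round (4 * k + 4) (by omega) (by omega) c hR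
    obtain ⟨s, hs, _⟩ := hA (0, 0) ⟨Or.inl rfl, by simp only; omega, by simp only; omega⟩
    by_cases ht : t < n
    · exact hP t ht
    · obtain ⟨r, rfl⟩ : ∃ r, t = r + n := ⟨t - n, by omega⟩
      rw [Function.iterate_add_apply, hn]
      have e : (4 * ((k + 1 : ℕ) : ℤ) + 4) = 4 * k + 4 + 4 := by push_cast; ring
      have h1 := ih r (by omega) (k + 1) c' (by rw [e]; exact hR')
      rw [e] at h1
      exact Pk_anti (by omega) h1

lemma rec_C0 : Rec langton C0 = {p | p.2 = 0 ∨ p.2 = -1} := by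
  ext ⟨x, y⟩
  constructor
  · intro hx
    by_contra hcon
    simp only [Set.mem_ofPred_eq, not_or] at hcon
    obtain ⟨T, c, _, hC, hR⟩ := rounds (|x| + |y|).toNat
    apply hx
    apply (Set.finite_lt_nat T).subset
    intro t ht
    by_contra hlt
    simp only [Set.mem_ofPred_eq, not_lt] at hlt
    obtain ⟨r, rfl⟩ : ∃ r, t = r + T := ⟨t - T, by omega⟩
    have h1 := stay r _ c hR
    rw [← hC, ← Function.iterate_add_apply] at h1
    have h2 : ((step langton)^[r + T] C0).pos = (x, y) := ht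
    rw [h2] at h1
    rcases h1 with h1 | h1 | h1
    · exact hcon.1 h1
    · exact hcon.2 h1
    · simp only at h1
      have h3 := abs_nonneg x
      have h4 := abs_nonneg y
      omega
  · intro hy
    have hy' : y = 0 ∨ y = -1 := hy
    apply Set.infinite_of_not_bddAbove
    rintro ⟨N, hN⟩
    obtain ⟨T, c, hT, hC, hR⟩ := rounds (|x|.toNat + N + 1)
    obtain ⟨c', ⟨n, _, _, hA⟩, _⟩ := round (4 * ((|x|.toNat + N + 1 : ℕ) : ℤ) + 4) (by omega)
      (by omega) c hR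
    have hx1 := le_abs_self x
    have hx2 := neg_abs_le x
    obtain ⟨t, _, ht⟩ := hA (x, y) ⟨hy', by simp only; push_cast; omega,
      by simp only; push_cast; omega⟩
    rw [← hC, ← Function.iterate_add_apply] at ht
    have h1 : t + T ≤ N := hN ht
    omega

/-- **Answer to Q1.** Langton's ant (rule word `LR`) has a configuration for which the set of
cells visited infinitely often is exactly the two-row strip `y ∈ {0, -1}`; in particular the
dichotomy `Rec = ∅` or `Rec = ℤ²` is false. -/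
theorem result :
    (∃ C : Config 2, Rec langton C = {p | p.2 = 0 ∨ p.2 = -1}) ∧
    ¬ ∀ (m : ℕ) [NeZero m] (w : Fin m → Turn), NonTrivial w →
        ∀ C : Config m, Rec w C = ∅ ∨ Rec w C = Set.univ := by
  refine ⟨⟨C0, rec_C0⟩, ?_⟩
  intro hall
  have h1 := hall 2 langton ⟨⟨0, rfl⟩, ⟨1, rfl⟩⟩ C0
  rw [rec_C0] at h1
  rcases h1 with h1 | h1
  · have : ((0, 0) : ℤ × ℤ) ∈ ({p | p.2 = 0 ∨ p.2 = -1} : Set (ℤ × ℤ)) := Or.inl rfl
    rw [h1] at this
    exact this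
  · have : ((0, 1) : ℤ × ℤ) ∈ ({p | p.2 = 0 ∨ p.2 = -1} : Set (ℤ × ℤ)) := by
      rw [h1]; exact Set.mem_univ _
    rcases this with h | h
    · simp at h
    · simp at h

end Pool.Agent.Results.MP_d11917_an.LangtonStrip
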